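import Pool.Agent.Y662.STU.Pair
import Pool.Agent.Y662.STU.Mirror

/-!
# Spectra in the tail class of a generic frequency

For a generic frequency `t ∈ (0, 1)` — one and the same residual set serves all the couplings — the
Sturmian spectra at two frequencies `α, β` which are both tail-equivalent to `t` are never
bi-Hölder equivalent, let alone diffeomorphic, unless `β = α` or `β = 1 - α`; the couplings may even
be different. In the two exceptional cases, and for equal couplings, the spectra are equal,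
respectively reflections of each other, for every irrational frequency. Hence in the tail class of a
generic frequency the spectra are diffeomorphic exactly for `β ∈ {α, 1 - α}`.

When `α` and `β` are extremely close to `P / Q` and `P' / Q'`, the spectrum at `α` has, at a fixed
large scale, exactly `Q` clusters, which are well chained inside at very small scales, and the one at
`β` has `Q'` of them. Such clusters are preserved by bi-Hölder maps, and for a fractional linear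
substitution with integral coefficients the denominators `Q, Q'` differ, except for finitely many
rational numbers or for the substitutions `α ↦ ± α + k`.
-/

set_option autoImplicit false

open Filter Topology Pool.Agent.H695R3.ST Pool.Agent.Y662.STU
open scoped NNReal

namespace Pool.Agent.Results.MP_e333c6_mp.TailClassRigidity

open Pool.Agent.Results.MP_e333c6_mp.SturmianNotDiffeo (L2Z Op spec V IsSturmian gauss digit
  TailEquiv Diffeomorphic TailPair SpectraDiffeo TailDiffeo lipschitz_on diffeo_symm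
  exists_operator)

/-- `A` and `B` are bi-Hölder equivalent: there is a bijection `f` of `A` onto `B`, with inverse
`g`, such that `f` and `g` are Hölder continuous with some positive exponents. -/
def BiHolder (A B : Set ℝ) : Prop :=
  ∃ (C r C' r' : ℝ≥0) (f g : ℝ → ℝ), 0 < r ∧ 0 < r' ∧ Set.MapsTo f A B ∧ Set.MapsTo g B A ∧
    Set.LeftInvOn g f A ∧ Set.LeftInvOn f g B ∧ HolderOnWith C r f A ∧ HolderOnWith C' r' g B

/-- For no phases the spectrum for the coupling `lam` and the frequency `α` is bi-Hölder equivalent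
to the one for `lam'` and `β`. -/
def NeverBiHolder (lam lam' α β : ℝ) : Prop :=
  ∀ (ω₁ ω₂ : ℝ) (H₁ H₂ : Op), IsSturmian lam α ω₁ H₁ → IsSturmian lam' β ω₂ H₂ →
    ¬ BiHolder (spec H₁) (spec H₂)

/-- For no phases the spectrum for the coupling `lam` and the frequency `α` is diffeomorphic to the
one for `lam'` and `β`. -/
def NeverDiffeo (lam lam' α β : ℝ) : Prop :=
  ∀ (ω₁ ω₂ : ℝ) (H₁ H₂ : Op), IsSturmian lam α ω₁ H₁ → IsSturmian lam' β ω₂ H₂ →
    ¬ Diffeomorphic (spec H₁) (spec H₂)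

/-- For all phases the two spectra are bi-Hölder equivalent. -/
def SpectraBiHolder (lam α β : ℝ) : Prop :=
  ∀ (ω₁ ω₂ : ℝ) (H₁ H₂ : Op), IsSturmian lam α ω₁ H₁ → IsSturmian lam β ω₂ H₂ →
    BiHolder (spec H₁) (spec H₂)

/-- For all phases the spectrum at `1 - α` is the image of the one at `α` under `E ↦ lam - E`. -/
def Mirror (lam α : ℝ) : Prop :=
  ∀ (ω₁ ω₂ : ℝ) (H₁ H₂ : Op), IsSturmian lam α ω₁ H₁ → IsSturmian lam (1 - α) ω₂ H₂ →
    ∀ E : ℝ, E ∈ spec H₂ ↔ lam - E ∈ spec H₁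

/-- For all phases the spectrum is the same. -/
def PhaseIndependent (lam α : ℝ) : Prop :=
  ∀ (ω₁ ω₂ : ℝ) (H₁ H₂ : Op), IsSturmian lam α ω₁ H₁ → IsSturmian lam α ω₂ H₂ →
    spec H₁ = spec H₂

/-! ### bi-Hölder maps -/

theorem holder_bound {A : Set ℝ} {f : ℝ → ℝ} {C r : ℝ≥0} (h : HolderOnWith C r f A) {n : ℕ}
    (hC : (C : ℝ) ≤ n + 1) (hr : (1 : ℝ) / (n + 1) ≤ r) : Md n A f := by
  intro a ha b hb hab
  have h1 := h.dist_le ha hb
  rw [Real.dist_eq, Real.dist_eq] at h1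
  refine h1.trans ?_
  have hn : (0 : ℝ) < 1 / ((n : ℝ) + 1) := by positivity
  have h2 : |a - b| ^ (r : ℝ) ≤ |a - b| ^ ((1 : ℝ) / (n + 1)) := by
    rcases (abs_nonneg (a - b)).eq_or_lt with h0 | h0
    · rw [← h0, Real.zero_rpow hn.ne', Real.zero_rpow (hn.trans_le hr).ne']
    · exact Real.rpow_le_rpow_of_exponent_ge h0 hab hr
  exact mul_le_mul hC h2 (Real.rpow_nonneg (abs_nonneg _) _) (by positivity)

theorem biHolder_eqn {A B : Set ℝ} (h : BiHolder A B) : ∃ n, Eqn n A B := by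
  obtain ⟨C, r, C', r', f, g, hr, hr', h1, h2, h3, h4, h5, h6⟩ := h
  have hex : ∀ x : ℝ, ∀ᶠ n : ℕ in atTop, x ≤ (n : ℝ) + 1 := fun x =>
    (tendsto_natCast_atTop_atTop.eventually (eventually_ge_atTop x)).mono fun n hn => by linarith
  have hex2 : ∀ x : ℝ, 0 < x → ∀ᶠ n : ℕ in atTop, (1 : ℝ) / (n + 1) ≤ x := by
    intro x hx
    have := tendsto_one_div_add_atTop_nhds_zero_nat (𝕜 := ℝ)
    exact (this.eventually (gt_mem_nhds hx)).mono fun k hk => hk.le
  obtain ⟨n, ⟨n1, n2⟩, n3, n4⟩ := (((hex C).and (hex C')).and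
    ((hex2 r (by exact_mod_cast hr)).and (hex2 r' (by exact_mod_cast hr')))).exists
  exact ⟨n, f, g, fun a ha => h1 ha, fun b hb => h2 hb, fun a ha => h3 ha, fun b hb => h4 hb,
    holder_bound h5 n1 n3, holder_bound h6 n2 n4⟩

theorem lip_holder {B : Set ℝ} {g : ℝ → ℝ} {C : ℝ} (hC : 0 ≤ C)
    (h : ∀ y₁ ∈ B, ∀ y₂ ∈ B, |g y₂ - g y₁| ≤ C * |y₂ - y₁|) : HolderOnWith C.toNNReal 1 g B := by
  rw [holderOnWith_one]
  refine LipschitzOnWith.of_dist_le_mul fun x hx y hy => ?_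
  rw [Real.dist_eq, Real.dist_eq, Real.coe_toNNReal C hC]
  exact h y hy x hx

theorem diffeo_biHolder {A B : Set ℝ} (hA : IsCompact A) (hB : IsCompact B)
    (h : Diffeomorphic A B) : BiHolder A B := by
  obtain ⟨U, W, f, g, hU, hUo, hW, hWo, hAU, hBW, hf, hg, -, -, hgf, hfg, hfA⟩ := h
  obtain ⟨C, hC0, hC⟩ := lipschitz_on hU hUo hAU hA hf
  obtain ⟨C', hC'0, hC'⟩ := lipschitz_on hW hWo hBW hB hg
  refine ⟨C.toNNReal, 1, C'.toNNReal, 1, f, g, one_pos, one_pos, ?_, ?_,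
    fun a ha => hgf a (hAU ha), fun b hb => hfg b (hBW hb), lip_holder hC0 hC,
    lip_holder hC'0 hC'⟩
  · intro a ha
    rw [← hfA]
    exact ⟨a, ha, rfl⟩
  · intro b hb
    rw [← hfA] at hb
    obtain ⟨a, ha, rfl⟩ := hb
    rwa [hgf a (hAU ha)]

theorem never_of {lam lam' α β : ℝ} (h : ∀ n, NotEq2 lam lam' n α β) :
    NeverBiHolder lam lam' α β ∧ NeverDiffeo lam lam' α β := by
  have h1 : NeverBiHolder lam lam' α β := by
    intro ω₁ ω₂ H₁ H₂ e1 e2 hb
    obtain ⟨n, hn⟩ := biHolder_eqn hb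
    exact h n ω₁ ω₂ H₁ H₂ e1 e2 hn
  exact ⟨h1, fun ω₁ ω₂ H₁ H₂ e1 e2 hd => h1 ω₁ ω₂ H₁ H₂ e1 e2
    (diffeo_biHolder (spectrum.isCompact H₁) (spectrum.isCompact H₂) hd)⟩

theorem generic :
    ∀ᶠ t in residual ℝ, 0 < t → t < 1 → Irrational t ∧ ∀ α β : ℝ, TailPair t α → TailPair t β →
      β ≠ α → β ≠ 1 - α → ∀ lam lam' : ℝ, 0 < lam → 0 < lam' →
        NeverBiHolder lam lam' α β ∧ NeverDiffeo lam lam' α β := by
  filter_upwards [generic_couplings] with t ht t0 t1
  obtain ⟨it, h⟩ := ht t0 t1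
  exact ⟨it, fun α β hα hβ h1 h2 lam lam' hl hl' => never_of fun n =>
    h lam lam' hl hl' α β hα.2.1 hβ.2.1 hα.2.2.2.1.1 hα.2.2.2.1.2 hβ.2.2.2.1.1 hβ.2.2.2.1.2
      hα.2.2.2.2 hβ.2.2.2.2 h1 h2 n⟩

/-! ### the exceptional cases -/

theorem diffeo_refl (A : Set ℝ) : Diffeomorphic A A :=
  ⟨Set.univ, Set.univ, id, id, isOpen_univ, Set.ordConnected_univ, isOpen_univ,
    Set.ordConnected_univ, Set.subset_univ _, Set.subset_univ _, contDiff_id.contDiffOn,
    contDiff_id.contDiffOn, Set.mapsTo_univ _ _, Set.mapsTo_univ _ _, fun _ _ => rfl,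
    fun _ _ => rfl, Set.image_id A⟩

theorem diffeo_mirror {A B : Set ℝ} {lam : ℝ} (h : ∀ E, E ∈ B ↔ lam - E ∈ A) :
    Diffeomorphic B A := by
  have hc : ContDiff ℝ 1 fun x : ℝ => lam - x := contDiff_const.sub contDiff_id
  refine ⟨Set.univ, Set.univ, fun x => lam - x, fun x => lam - x, isOpen_univ,
    Set.ordConnected_univ, isOpen_univ, Set.ordConnected_univ, Set.subset_univ _,
    Set.subset_univ _, hc.contDiffOn, hc.contDiffOn, Set.mapsTo_univ _ _, Set.mapsTo_univ _ _,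
    fun x _ => sub_sub_cancel _ _, fun x _ => sub_sub_cancel _ _, ?_⟩
  ext x
  constructor
  · rintro ⟨y, hy, rfl⟩
    exact (h y).1 hy
  · intro hx
    refine ⟨lam - x, (h _).2 ?_, sub_sub_cancel _ _⟩
    rwa [sub_sub_cancel]

theorem tailPair_mirror {α : ℝ} (iα : Irrational α) (h : α ∈ Set.Ioo (0 : ℝ) 1) :
    TailPair α (1 - α) := by
  have hα' : Irrational (1 - α) := by
    have := iα.intCast_sub 1
    push_cast at this
    exact this
  exact ⟨iα, hα', h, ⟨by linarith [h.2], by linarith [h.1]⟩, tail_mirror iα h.1 h.2⟩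

/-- Couplings, frequency: the two trivial coincidences. -/
theorem positive {lam α : ℝ} (iα : Irrational α) (h : α ∈ Set.Ioo (0 : ℝ) 1) :
    PhaseIndependent lam α ∧ Mirror lam α ∧ SpectraDiffeo lam α α ∧ SpectraDiffeo lam α (1 - α) ∧
      SpectraBiHolder lam α α ∧ SpectraBiHolder lam α (1 - α) := by
  have h1 : PhaseIndependent lam α := fun ω₁ ω₂ H₁ H₂ e1 e2 =>
    phase_eq iα h.1 h.2 (lam := lam) (ω₁ := ω₁) (ω₂ := ω₂) e1 e2
  have h2 : Mirror lam α := fun ω₁ ω₂ H₁ H₂ e1 e2 =>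
    mirror_eq iα h.1 h.2 (lam := lam) (ω₁ := ω₁) (ω₂ := ω₂) e1 e2
  have h3 : ∀ (ω₁ ω₂ : ℝ) (H₁ H₂ : Op), IsSturmian lam α ω₁ H₁ → IsSturmian lam α ω₂ H₂ →
      Diffeomorphic (spec H₂) (spec H₁) := fun ω₁ ω₂ H₁ H₂ e1 e2 => by
    rw [h1 ω₁ ω₂ H₁ H₂ e1 e2]
    exact diffeo_refl _
  have h4 : ∀ (ω₁ ω₂ : ℝ) (H₁ H₂ : Op), IsSturmian lam α ω₁ H₁ →
      IsSturmian lam (1 - α) ω₂ H₂ → Diffeomorphic (spec H₂) (spec H₁) :=
    fun ω₁ ω₂ H₁ H₂ e1 e2 => diffeo_mirror (h2 ω₁ ω₂ H₁ H₂ e1 e2)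
  refine ⟨h1, h2, fun ω₁ _ ω₂ _ H₁ H₂ e1 e2 => h3 ω₁ ω₂ H₁ H₂ e1 e2,
    fun ω₁ _ ω₂ _ H₁ H₂ e1 e2 => h4 ω₁ ω₂ H₁ H₂ e1 e2, fun ω₁ ω₂ H₁ H₂ e1 e2 => ?_,
    fun ω₁ ω₂ H₁ H₂ e1 e2 => ?_⟩
  · exact diffeo_biHolder (spectrum.isCompact H₁) (spectrum.isCompact H₂)
      (diffeo_symm (h3 ω₁ ω₂ H₁ H₂ e1 e2))
  · exact diffeo_biHolder (spectrum.isCompact H₁) (spectrum.isCompact H₂)
      (diffeo_symm (h4 ω₁ ω₂ H₁ H₂ e1 e2))

/-- **Rigidity of generic tail classes.**

(1) There is a residual set of frequencies `t` such that for any two frequencies `α, β ∈ (0, 1)`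
tail-equivalent to `t` with `β ≠ α` and `β ≠ 1 - α`, and any couplings `lam, lam' > 0`, equal or
not, the spectra are neither bi-Hölder equivalent nor diffeomorphic, for any phases.

(2) For every coupling and every irrational frequency the spectrum does not depend on the phase, and
the spectrum at the tail-equivalent frequency `1 - α` is the reflection `E ↦ lam - E` of the one at
`α`; so for `β ∈ {α, 1 - α}` the spectra are diffeomorphic.

(3) Hence in the tail class of a generic frequency, and for every coupling, the spectra at `α` and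
`β` are diffeomorphic if and only if they are bi-Hölder equivalent, if and only if
`β ∈ {α, 1 - α}`.

(4) In particular the assertion of Q1 is false. -/
theorem result :
    (∀ᶠ t in residual ℝ, 0 < t → t < 1 → Irrational t ∧ ∀ α β : ℝ, TailPair t α → TailPair t β →
      β ≠ α → β ≠ 1 - α → ∀ lam lam' : ℝ, 0 < lam → 0 < lam' →
        NeverBiHolder lam lam' α β ∧ NeverDiffeo lam lam' α β) ∧
    (∀ lam α : ℝ, Irrational α → α ∈ Set.Ioo (0 : ℝ) 1 →
      TailPair α (1 - α) ∧ PhaseIndependent lam α ∧ Mirror lam α) ∧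
    (∀ᶠ t in residual ℝ, 0 < t → t < 1 → ∀ α β : ℝ, TailPair t α → TailPair t β →
      ∀ lam : ℝ, 0 < lam → (SpectraDiffeo lam α β ↔ β = α ∨ β = 1 - α) ∧
        (SpectraBiHolder lam α β ↔ β = α ∨ β = 1 - α)) ∧
    ¬ TailDiffeo ∧
    ∀ lam : ℝ, 0 < lam → ∀ α ω : ℝ, ∃ H : Op, IsSturmian lam α ω H ∧ IsSelfAdjoint H := by
  have class_iff : ∀ᶠ t in residual ℝ, 0 < t → t < 1 → ∀ α β : ℝ, TailPair t α →
      TailPair t β → ∀ lam : ℝ, 0 < lam → (SpectraDiffeo lam α β ↔ β = α ∨ β = 1 - α) ∧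
        (SpectraBiHolder lam α β ↔ β = α ∨ β = 1 - α) := by
    filter_upwards [generic] with t ht t0 t1 α β hα hβ lam hl
    have hp := positive (lam := lam) hα.2.1 hα.2.2.2.1
    obtain ⟨H₁, h1, -⟩ := exists_operator hl α 0
    obtain ⟨H₂, h2, -⟩ := exists_operator hl β 0
    constructor
    · constructor
      · intro h
        by_contra hc
        rw [not_or] at hc
        exact ((ht t0 t1).2 α β hα hβ hc.1 hc.2 lam lam hl hl).2 0 0 H₁ H₂ h1 h2
          (diffeo_symm (h 0 ⟨le_rfl, one_pos⟩ 0 ⟨le_rfl, one_pos⟩ H₁ H₂ h1 h2))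
      · rintro (rfl | rfl)
        · exact hp.2.2.1
        · exact hp.2.2.2.1
    · constructor
      · intro h
        by_contra hc
        rw [not_or] at hc
        exact ((ht t0 t1).2 α β hα hβ hc.1 hc.2 lam lam hl hl).1 0 0 H₁ H₂ h1 h2
          (h 0 0 H₁ H₂ h1 h2)
      · rintro (rfl | rfl)
        · exact hp.2.2.2.2.1
        · exact hp.2.2.2.2.2
  refine ⟨generic, fun lam α iα h => ⟨tailPair_mirror iα h, (positive iα h).1,
    (positive iα h).2.1⟩, class_iff, ?_, fun lam hl α ω => exists_operator hl α ω⟩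
  rintro ⟨δ, hδ, h⟩
  obtain ⟨t, ⟨ht0', ht1'⟩, hcl, ht⟩ := (dense_of_mem_residual
    (class_iff.and eventually_residual_irrational)).inter_open_nonempty
    (Set.Ioo (1 / 4 : ℝ) (1 / 2)) isOpen_Ioo ⟨1 / 3, by norm_num, by norm_num⟩
  have ht0 : 0 < t := by linarith
  have ht1 : t < 1 := by linarith
  have it : Irrational t := ht
  have htt : TailPair t t := ⟨it, it, ⟨ht0, ht1⟩, ⟨ht0, ht1⟩, tail_refl t⟩
  have ib : Irrational (1 / (7 + t)) := by
    rw [one_div]
    exact (it.natCast_add 7).inv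
  have b0 : 0 < 1 / (7 + t) := by positivity
  have b1 : 1 / (7 + t) < 1 / 4 := by
    rw [div_lt_div_iff₀ (by positivity) (by norm_num)]
    linarith
  have hg : gauss (1 / (7 + t)) = t :=
    Pool.Agent.Results.MP_e333c6_mp.SturmianNotDiffeo.gauss_seven ht0 ht1
  have htb : TailPair t (1 / (7 + t)) := by
    refine ⟨it, ib, ⟨ht0, ht1⟩, ⟨b0, by linarith⟩, 1, 1, le_rfl, by norm_num, fun i hi => ?_⟩
    unfold digit
    have e1 : (((i : ℤ) + 1).toNat) - 1 = (i - 1) + 1 := by omega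
    rw [e1, Function.iterate_succ_apply, hg]
  have h3 := (hcl ht0 ht1 t (1 / (7 + t)) htt htb (δ / 2) (by positivity)).1.1
    (h (δ / 2) (by positivity) (by linarith) t (1 / (7 + t)) htb)
  rcases h3 with h3 | h3 <;> linarith

end Pool.Agent.Results.MP_e333c6_mp.TailClassRigidity
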